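import Pool.Agent.Lib.MP_edb5be_nt.TS.Iface
import Pool.Agent.Lib.MP_edb5be_nt.ND.H57.TGFT
import Pool.Agent.Lib.MP_edb5be_nt.ND.H57.EqQ

/-!
# TS : the modules TGPF and FMEQF
-/

set_option autoImplicit false

namespace Pool.Agent.Lib.MP_edb5be_nt.TS.H57

open Pool.Agent.Lib.MP_0a5adf_nt.TP

theorem tgpf : TGPFStatement := by
  intro A
  obtain ⟨C, u₀, hC, h⟩ := ND.H57.tgpqT A
  exact ⟨C, u₀, hC, fun d B lo t J u h1 h2 h3 h4 h5 => h d B lo t J u h1 h2 h3 h4 h5⟩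

theorem fmeqf : FMEQFStatement := by
  intro r
  obtain ⟨C, u₀, hC, h⟩ := ND.H57.gd_eqQ r
  refine ⟨C, max u₀ 0, hC, fun d B lo t u ρ h1 h2 h3 h4 => ?_⟩
  have h5 : 0 ≤ u := (le_max_right _ _).trans h1
  exact h d B lo t u ρ ((le_max_left _ _).trans h1) (by linarith) h3 h4

end Pool.Agent.Lib.MP_edb5be_nt.TS.H57
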