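import Pool.Agent.Lib.MP_edb5be_nt.TS.Iface2
import Pool.Agent.Lib.MP_edb5be_nt.TS.H57.Inst
import Pool.Agent.Lib.MP_edb5be_nt.ND.H50.Bin
import Pool.Agent.Lib.MP_edb5be_nt.ND.H50.Slow
import Pool.Agent.Lib.MP_edb5be_nt.ND.H63.Lip

/-!
# TS, second stage : the module PER (families that are periodic in time)
-/

set_option autoImplicit false

namespace Pool.Agent.Lib.MP_edb5be_nt.TS.H57

open Finset Filter Topology Pool.Agent.Lib.MP_0a5adf_nt.TP Pool.Agent.Lib.MP_edb5be_nt.ND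

theorem bw_nn (a b : ℕ) : 0 ≤ bw a b := by unfold bw; positivity

/-- One more step and one more unit of height. -/
theorem pj_one {F : ℝ → ℝ} (hF : ∀ x : ℝ, 0 ≤ x → |F x| ≤ 2) {u : ℝ} {J : ℕ}
    (hJ : (J : ℝ) + 2 ≤ u) :
    |PJ (J + 1) F (u + 1) - PJ J F u| ≤ 4 / √((J : ℝ) + 1) := by
  have hth0 := ND.H50.th_nonneg
  obtain ⟨_, hb2, _, _⟩ := ND.H50.bin J
  have h1 : PJ (J + 1) F (u + 1) = ∑ v ∈ range (J + 2), bw (J + 1) v * F (u - J + th * v) := by
    unfold PJ
    apply Finset.sum_congr rfl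
    intro v _
    congr 2
    push_cast; ring
  have h0 : PJ J F u = ∑ v ∈ range (J + 2), bw J v * F (u - J + th * v) := by
    unfold PJ
    rw [Finset.sum_range_succ (fun v : ℕ => bw J v * F (u - J + th * v)) (J + 1)]
    simp [bw]
  rw [h1, h0, ← Finset.sum_sub_distrib]
  refine le_trans (Finset.abs_sum_le_sum_abs _ _) ?_
  calc ∑ v ∈ range (J + 2), |bw (J + 1) v * F (u - J + th * v) - bw J v * F (u - J + th * v)| ≤
      ∑ v ∈ range (J + 2), 2 * |bw (J + 1) v - bw J v| := by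
        apply Finset.sum_le_sum
        intro v _
        rw [← sub_mul, abs_mul, mul_comm]
        have : 0 ≤ th * (v : ℝ) := by positivity
        exact mul_le_mul_of_nonneg_right (hF _ (by linarith)) (abs_nonneg _)
    _ = 2 * ∑ v ∈ range (J + 2), |bw (J + 1) v - bw J v| := by rw [Finset.mul_sum]
    _ ≤ 2 * (1 / √((J : ℝ) + 1)) := by linarith
    _ = 2 / √((J : ℝ) + 1) := by ring
    _ ≤ 4 / √((J : ℝ) + 1) := by gcongr; norm_num

/-- Two more steps, one of them odd. -/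
theorem pj_two {F : ℝ → ℝ} (hF : ∀ x : ℝ, 0 ≤ x → |F x| ≤ 2) {u : ℝ} {J : ℕ}
    (hJ : (J : ℝ) + 2 ≤ u) :
    |PJ (J + 2) F (u + (2 - th)) - PJ J F u| ≤ 4 / √((J : ℝ) + 1) := by
  have hth0 := ND.H50.th_nonneg
  have hth2 := ND.H50.th_le_two
  obtain ⟨_, _, hb3, _⟩ := ND.H50.bin J
  have h1 : PJ (J + 2) F (u + (2 - th)) =
      bw (J + 2) 0 * F (u - J - th) +
      bw (J + 2) (J + 2) * F (u - J + th * ((J : ℝ) + 1)) +
      ∑ v ∈ range (J + 1), bw (J + 2) (v + 1) * F (u - J + th * v) := by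
    unfold PJ
    rw [Finset.sum_range_succ, Finset.sum_range_succ']
    have e0 : u + (2 - th) - ((J + 2 : ℕ) : ℝ) + th * ((0 : ℕ) : ℝ) = u - J - th := by
      push_cast; ring
    have e1 : u + (2 - th) - ((J + 2 : ℕ) : ℝ) + th * ((J + 2 : ℕ) : ℝ) =
        u - J + th * ((J : ℝ) + 1) := by
      push_cast; ring
    have e2 : ∀ v ∈ range (J + 1), bw (J + 2) (v + 1) *
        F (u + (2 - th) - ((J + 2 : ℕ) : ℝ) + th * ((v + 1 : ℕ) : ℝ)) =
        bw (J + 2) (v + 1) * F (u - J + th * v) := by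
      intro v _
      congr 2
      push_cast; ring
    rw [e0, e1, Finset.sum_congr rfl e2]
    ring
  have h2 : PJ (J + 2) F (u + (2 - th)) - PJ J F u =
      bw (J + 2) 0 * F (u - J - th) +
      bw (J + 2) (J + 2) * F (u - J + th * ((J : ℝ) + 1)) +
      ∑ v ∈ range (J + 1), (bw (J + 2) (v + 1) - bw J v) * F (u - J + th * v) := by
    rw [h1]
    unfold PJ
    simp only [sub_mul, Finset.sum_sub_distrib]
    ring
  rw [h2]
  have t0 : |bw (J + 2) 0 * F (u - J - th)| ≤ 2 * bw (J + 2) 0 := by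
    rw [abs_mul, abs_of_nonneg (bw_nn _ _), mul_comm]
    exact mul_le_mul_of_nonneg_right (hF _ (by linarith)) (bw_nn _ _)
  have t1 : |bw (J + 2) (J + 2) * F (u - J + th * ((J : ℝ) + 1))| ≤
      2 * bw (J + 2) (J + 2) := by
    rw [abs_mul, abs_of_nonneg (bw_nn _ _), mul_comm]
    have : 0 ≤ th * ((J : ℝ) + 1) := by positivity
    exact mul_le_mul_of_nonneg_right (hF _ (by linarith)) (bw_nn _ _)
  have t2 : |∑ v ∈ range (J + 1), (bw (J + 2) (v + 1) - bw J v) * F (u - J + th * v)| ≤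
      2 * ∑ v ∈ range (J + 1), |bw (J + 2) (v + 1) - bw J v| := by
    refine le_trans (Finset.abs_sum_le_sum_abs _ _) ?_
    rw [Finset.mul_sum]
    apply Finset.sum_le_sum
    intro v _
    rw [abs_mul, mul_comm]
    have : 0 ≤ th * (v : ℝ) := by positivity
    exact mul_le_mul_of_nonneg_right (hF _ (by linarith)) (abs_nonneg _)
  have hJ0 : (0 : ℝ) ≤ (J : ℝ) := Nat.cast_nonneg J
  have hs : √((J : ℝ) + 1) ≤ (J : ℝ) + 1 := by
    rw [Real.sqrt_le_left (by positivity)]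
    nlinarith
  have hsp : 0 < √((J : ℝ) + 1) := Real.sqrt_pos.mpr (by positivity)
  calc |bw (J + 2) 0 * F (u - J - th) +
      bw (J + 2) (J + 2) * F (u - J + th * ((J : ℝ) + 1)) +
      ∑ v ∈ range (J + 1), (bw (J + 2) (v + 1) - bw J v) * F (u - J + th * v)| ≤
      |bw (J + 2) 0 * F (u - J - th)| +
      |bw (J + 2) (J + 2) * F (u - J + th * ((J : ℝ) + 1))| +
      |∑ v ∈ range (J + 1), (bw (J + 2) (v + 1) - bw J v) * F (u - J + th * v)| :=
        abs_add_three _ _ _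
    _ ≤ 2 * (bw (J + 2) 0 + bw (J + 2) (J + 2) +
        ∑ v ∈ range (J + 1), |bw (J + 2) (v + 1) - bw J v|) := by linarith
    _ ≤ 2 * (2 / ((J : ℝ) + 1)) := by linarith
    _ = 4 / ((J : ℝ) + 1) := by ring
    _ ≤ 4 / √((J : ℝ) + 1) := div_le_div_of_nonneg_left (by norm_num) hsp hs

theorem gd_bd (B : Set ℕ) (x : ℝ) (hx : 0 ≤ x) : |Gd B x| ≤ 2 := by
  obtain ⟨h1, h2, _⟩ := ND.H63.lip B x 0 hx le_rfl zero_le_one
  rw [abs_of_nonneg h1]
  have h3 : (1 : ℝ) ≤ 2 ^ x := Real.one_le_rpow (by norm_num) hx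
  have h4 : 1 / (2 : ℝ) ^ x ≤ 1 := by
    rw [div_le_one (by positivity)]
    exact h3
  linarith

theorem per_mul {B : ℕ → Set ℕ} {m : ℕ} (hper : ∀ t, B (t + m) = B t) (t q : ℕ) :
    B (t + m * q) = B t := by
  induction q with
  | zero => simp
  | succ q ih => rw [Nat.mul_succ, ← Nat.add_assoc, hper, ih]

theorem tendsto_sq_aux : Tendsto (fun u : ℝ => 4 / √((⌊u / 40⌋₊ : ℝ) + 1)) atTop (𝓝 0) := by
  have h1 : Tendsto (fun u : ℝ => u / 40) atTop atTop :=
    tendsto_id.atTop_div_const (by norm_num)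
  have h2 : Tendsto (fun u : ℝ => (⌊u / 40⌋₊ : ℝ) + 1) atTop atTop :=
    tendsto_atTop_mono (fun u => (Nat.lt_floor_add_one (u / 40)).le) h1
  exact (Real.tendsto_sqrt_atTop.comp h2).const_div_atTop 4

/-- The shift `(s, h)` in time and height, from the estimate of the binomial sums. -/
theorem shift_of (d : Bool) (B : ℕ → Set ℕ) (lo m : ℕ) (hm : 0 < m) (hB : InvF d B lo)
    (hper : ∀ t, B (t + m) = B t) (s : ℕ) (hs : s ≤ 2) (h : ℝ) (h0 : 0 ≤ h)
    (hPJ : ∀ F : ℝ → ℝ, (∀ x : ℝ, 0 ≤ x → |F x| ≤ 2) → ∀ (u : ℝ) (J : ℕ), (J : ℝ) + 2 ≤ u →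
      |PJ (J + s) F (u + h) - PJ J F u| ≤ 4 / √((J : ℝ) + 1)) (t : ℕ) :
    Tendsto (fun u : ℝ => Gd (B (t + s)) (u + h) - Gd (B t) u) atTop (𝓝 0) := by
  obtain ⟨C, u₀, hC, hT⟩ := tgpf 1
  have hb : Tendsto (fun u : ℝ => C / u + C / u + 4 / √((⌊u / 40⌋₊ : ℝ) + 1)) atTop (𝓝 0) := by
    have hc : Tendsto (fun u : ℝ => C / u) atTop (𝓝 0) := tendsto_id.const_div_atTop C
    simpa using (hc.add hc).add tendsto_sq_aux
  refine squeeze_zero_norm' ?_ hb
  filter_upwards [eventually_ge_atTop (max u₀ (max 100 (10 / 9 * (lo : ℝ))))] with u hu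
  have hu0 : u₀ ≤ u := (le_max_left _ _).trans hu
  have hu1 : 100 ≤ u := (le_max_left _ _).trans ((le_max_right _ _).trans hu)
  have hu2 : 10 / 9 * (lo : ℝ) ≤ u := (le_max_right _ _).trans ((le_max_right _ _).trans hu)
  set J : ℕ := ⌊u / 40⌋₊ with hJ
  have hJle : (J : ℝ) ≤ u / 40 := Nat.floor_le (by linarith)
  set q : ℕ := ⌈(u + h) ^ (1 / 4 : ℝ)⌉₊ with hq
  have hqle : (u + h) ^ (1 / 4 : ℝ) ≤ q := Nat.le_ceil _
  have hqle' : u ^ (1 / 4 : ℝ) ≤ q :=
    (Real.rpow_le_rpow (by linarith) (by linarith) (by norm_num)).trans hqle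
  obtain ⟨m', rfl⟩ : ∃ m', m = m' + 1 := ⟨m - 1, by omega⟩
  -- the time
  set t' : ℕ := t + J * m' + (m' + 1) * q with ht'
  have hqt : q ≤ t' := by
    have : q ≤ (m' + 1) * q := Nat.le_mul_of_pos_left _ (by omega)
    omega
  have hqtR : (q : ℝ) ≤ (t' : ℝ) := by exact_mod_cast hqt
  have e1 : t' + J = t + (m' + 1) * (J + q) := by rw [ht']; ring
  have e2 : t' + (J + s) = (t + s) + (m' + 1) * (J + q) := by rw [ht']; ring
  have hsR : (s : ℝ) ≤ 2 := by exact_mod_cast hs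
  have a1 := hT d B lo t' J u hu0 (by linarith) hB (by linarith) (hqle'.trans hqtR)
  have a2 := hT d B lo t' (J + s) (u + h) (by linarith) (by linarith) hB
    (by push_cast; linarith) (hqle.trans hqtR)
  rw [e1, per_mul hper] at a1
  rw [e2, per_mul hper] at a2
  have a3 := hPJ (Gd (B t')) (gd_bd _) u J (by linarith)
  rw [pow_one] at a1 a2
  have hupos : 0 < u := by linarith
  have a4 : C / (u + h) ≤ C / u := div_le_div_of_nonneg_left hC.le hupos (by linarith)
  rw [Real.norm_eq_abs]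
  have e : Gd (B (t + s)) (u + h) - Gd (B t) u =
      (Gd (B (t + s)) (u + h) - PJ (J + s) (Gd (B t')) (u + h)) +
      (PJ (J + s) (Gd (B t')) (u + h) - PJ J (Gd (B t')) u) +
      (PJ J (Gd (B t')) u - Gd (B t) u) := by ring
  rw [e]
  refine (abs_add_three _ _ _).trans ?_
  rw [abs_sub_comm (PJ J (Gd (B t')) u)]
  linarith

/-- The subgroup of the shifts in time and height under which the block proportions do not
change asymptotically. -/
def Sh (m : ℕ) [NeZero m] (B : ℕ → Set ℕ) : AddSubgroup (ZMod m × ℝ) where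
  carrier := {p | ∀ t : ZMod m,
    Tendsto (fun u : ℝ => Gd (B (t + p.1).val) (u + p.2) - Gd (B t.val) u) atTop (𝓝 0)}
  zero_mem' := by
    intro t
    simp
  add_mem' := by
    intro p q hp hq t
    have h1 := (hp (t + q.1)).comp (tendsto_atTop_add_const_right atTop q.2 tendsto_id)
    have h2 := h1.add (hq t)
    rw [add_zero] at h2
    refine h2.congr fun u => ?_
    simp only [Function.comp_apply, id_eq, Prod.fst_add, Prod.snd_add]
    rw [show t + (p.1 + q.1) = t + q.1 + p.1 by ring, show u + (p.2 + q.2) = u + q.2 + p.2 by ring]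
    ring
  neg_mem' := by
    intro p hp t
    have h1 := ((hp (t - p.1)).comp (tendsto_atTop_add_const_right atTop (-p.2) tendsto_id)).neg
    rw [neg_zero] at h1
    refine h1.congr fun u => ?_
    simp only [Function.comp_apply, id_eq, Prod.fst_neg, Prod.snd_neg]
    rw [show t - p.1 + p.1 = t by ring, show u + -p.2 + p.2 = u by ring,
      show t + -p.1 = t - p.1 by ring]
    ring

theorem val_cast {B : ℕ → Set ℕ} {m : ℕ} (hper : ∀ t, B (t + m) = B t) (n : ℕ) :
    B ((n : ZMod m).val) = B n := by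
  rw [ZMod.val_natCast]
  conv_rhs => rw [← Nat.mod_add_div n m]
  rw [per_mul hper]

theorem irr_th : Irrational th := by
  unfold th
  rintro ⟨q, hq⟩
  have hlog : (0 : ℝ) < Real.logb 2 3 := Real.logb_pos (by norm_num) (by norm_num)
  have hq0 : (0 : ℚ) < q := by
    have : (0 : ℝ) < (q : ℝ) := by rw [hq]; exact hlog
    exact_mod_cast this
  have h1 : (2 : ℝ) ^ ((q : ℝ)) = 3 := by
    rw [hq]; exact Real.rpow_logb (by norm_num) (by norm_num) (by norm_num)
  have hqe : (q : ℝ) = (q.num.toNat : ℝ) / (q.den : ℝ) := by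
    have hn : ((q.num.toNat : ℤ) : ℝ) = (q.num : ℝ) := by
      rw [Int.toNat_of_nonneg (Rat.num_nonneg.mpr hq0.le)]
    rw [Rat.cast_def, ← hn, Int.cast_natCast]
  have hden : (q.den : ℝ) ≠ 0 := by exact_mod_cast q.den_nz
  have h2 : (2 : ℝ) ^ (q.num.toNat) = 3 ^ (q.den) := by
    rw [← h1, ← Real.rpow_natCast, ← Real.rpow_natCast, ← Real.rpow_mul (by norm_num), hqe]
    congr 1
    field_simp
  have h3 : (2 : ℕ) ^ (q.num.toNat) = 3 ^ (q.den) := by exact_mod_cast h2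
  have hpos : 0 < q.num.toNat := by
    have := Rat.num_pos.mpr hq0
    omega
  have h4 : Even ((3 : ℕ) ^ q.den) := by
    rw [← h3]
    exact (Nat.even_pow.mpr ⟨even_two, by omega⟩)
  rw [Nat.even_pow] at h4
  exact absurd h4.1 (by decide)

theorem exists_small {m : ℕ} (hm : 0 < m) {ε : ℝ} (hε : 0 < ε) :
    ∃ a c : ℤ, |1 - a * th + c * m| < ε := by
  have hd : Dense (AddSubgroup.closure ({th, (m : ℝ)} : Set ℝ) : Set ℝ) := by
    rw [dense_addSubgroupClosure_pair_iff]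
    exact irr_th.div_natCast (by omega)
  obtain ⟨x, hx, hx2⟩ := Metric.dense_iff.mp hd 1 ε hε
  obtain ⟨a, b, rfl⟩ := AddSubgroup.mem_closure_pair.mp hx2
  refine ⟨a, -b, ?_⟩
  rw [Metric.mem_ball, Real.dist_eq, abs_sub_comm] at hx
  simp only [zsmul_eq_mul] at hx
  rw [show (1 : ℝ) - a * th + ((-b : ℤ) : ℝ) * m = 1 - (a * th + b * m) by push_cast; ring]
  exact hx

theorem per : PERStatement := by
  intro d B lo m hm hB hper t
  have : NeZero m := ⟨by omega⟩
  have hth2 := ND.H50.th_le_two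
  have m1 : ((1 : ZMod m), (1 : ℝ)) ∈ Sh m B := by
    intro t
    have h1 := shift_of d B lo m hm hB hper 1 (by norm_num) 1 zero_le_one
      (fun F hF u J hJ => pj_one hF hJ) t.val
    refine h1.congr fun u => ?_
    have : B (t + 1).val = B (t.val + 1) := by
      rw [← val_cast hper (t.val + 1)]
      push_cast
      rw [ZMod.natCast_zmod_val]
    rw [this]
  have m2 : ((2 : ZMod m), (2 - th : ℝ)) ∈ Sh m B := by
    intro t
    have h1 := shift_of d B lo m hm hB hper 2 le_rfl (2 - th) (by linarith)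
      (fun F hF u J hJ => pj_two hF hJ) t.val
    refine h1.congr fun u => ?_
    have : B (t + 2).val = B (t.val + 2) := by
      rw [← val_cast hper (t.val + 2)]
      push_cast
      rw [ZMod.natCast_zmod_val]
    rw [this]
  have key : ∀ ε : ℝ, 0 < ε → ∃ h : ℝ, |h| < ε ∧ ((1 : ZMod m), h) ∈ Sh m B := by
    intro ε hε
    obtain ⟨a, c, hac⟩ := exists_small hm hε
    refine ⟨_, hac, ?_⟩
    have h1 := (Sh m B).add_mem ((Sh m B).zsmul_mem m1 (1 - 2 * a + c * m))
      ((Sh m B).zsmul_mem m2 a)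
    convert h1 using 1
    simp only [Prod.smul_mk, zsmul_eq_mul, Prod.mk_add_mk, Prod.mk.injEq]
    constructor
    · push_cast
      simp only [CharP.cast_eq_zero]
      ring
    · push_cast
      ring
  rw [Metric.tendsto_atTop]
  intro ε hε
  obtain ⟨h, hh, hS⟩ := key (min (ε / 40) 1) (by positivity)
  have hh1 : |h| < ε / 40 := hh.trans_le (min_le_left _ _)
  have hh2 : |h| < 1 := hh.trans_le (min_le_right _ _)
  have h1 := hS ((t : ℕ) : ZMod m)
  have h2 : Tendsto (fun u : ℝ => 10 / (2 : ℝ) ^ (u - 1)) atTop (𝓝 0) := by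
    refine Tendsto.const_div_atTop ?_ 10
    have h3 : Tendsto (fun u : ℝ => (2 : ℝ) ^ u) atTop atTop :=
      tendsto_rpow_atTop_of_base_gt_one 2 (by norm_num)
    exact h3.comp (tendsto_atTop_add_const_right atTop (-1) tendsto_id)
  obtain ⟨N1, hN1⟩ := (Metric.tendsto_atTop.mp h1) (ε / 4) (by positivity)
  obtain ⟨N2, hN2⟩ := (Metric.tendsto_atTop.mp h2) (ε / 4) (by positivity)
  refine ⟨max (max N1 N2) 2, fun u hu => ?_⟩
  have hu1 : N1 ≤ u := (le_max_left _ _).trans ((le_max_left _ _).trans hu)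
  have hu2 : N2 ≤ u := (le_max_right _ _).trans ((le_max_left _ _).trans hu)
  have hu3 : 2 ≤ u := (le_max_right _ _).trans hu
  have b1 := hN1 u hu1
  have b2 := hN2 u hu2
  rw [Real.dist_eq, sub_zero] at b1 b2 ⊢
  have e1 : B (((t : ℕ) : ZMod m) + 1).val = B (t + 1) := by
    rw [← val_cast hper (t + 1)]
    push_cast
    rfl
  simp only [e1, val_cast hper] at b1
  have b3 : |Gd (B (t + 1)) (u + h) - Gd (B (t + 1)) u| ≤ ε / 4 + ε / 4 := by
    have b2' : 10 / (2 : ℝ) ^ (u - 1) < ε / 4 := lt_of_abs_lt b2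
    rcases le_total 0 h with h0 | h0
    · rw [abs_of_nonneg h0] at hh1 hh2
      obtain ⟨_, _, c1⟩ := ND.H63.lip (B (t + 1)) u h (by linarith) h0 hh2.le
      refine c1.trans ?_
      have c2 : 1 / (2 : ℝ) ^ u ≤ 1 / (2 : ℝ) ^ (u - 1) :=
        one_div_le_one_div_of_le (by positivity)
          (Real.rpow_le_rpow_of_exponent_le (by norm_num) (by linarith))
      have c3 : 10 * (1 / (2 : ℝ) ^ (u - 1)) = 10 / (2 : ℝ) ^ (u - 1) := by ring
      linarith
    · rw [abs_of_nonpos h0] at hh1 hh2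
      obtain ⟨_, _, c1⟩ := ND.H63.lip (B (t + 1)) (u + h) (-h) (by linarith) (by linarith) hh2.le
      rw [show u + h + -h = u by ring, abs_sub_comm] at c1
      refine c1.trans ?_
      have c2 : 1 / (2 : ℝ) ^ (u + h) ≤ 1 / (2 : ℝ) ^ (u - 1) :=
        one_div_le_one_div_of_le (by positivity)
          (Real.rpow_le_rpow_of_exponent_le (by norm_num) (by linarith))
      have c3 : 10 * (1 / (2 : ℝ) ^ (u - 1)) = 10 / (2 : ℝ) ^ (u - 1) := by ring
      linarith
  have e : Gd (B (t + 1)) u - Gd (B t) u = (Gd (B (t + 1)) (u + h) - Gd (B t) u) -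
      (Gd (B (t + 1)) (u + h) - Gd (B (t + 1)) u) := by ring
  rw [e]
  refine (abs_sub _ _).trans_lt ?_
  linarith

end Pool.Agent.Lib.MP_edb5be_nt.TS.H57
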